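import Pool.Agent.MWKP.StmtsN

/-! # Row R0N of squad MWKP -/

namespace Pool.Agent.MWKP.H30

open Pool.Agent.Helper14_MV Pool.Agent.Helper2_MV Pool.Agent.MWK Pool.Agent.MWKP
open Pool.Agent.Helper44_MVT

theorem r0n (h : NrnStmt) : R0nStmt := by
  intro n β hm hg a b ha hb
  have H : Pool.Agent.Helper70_MWR.Hg n β := ⟨hg.pos, hg.per, hg.gm, hm, hg.ncr⟩
  have e := h n β hm hg
  have h0 : ∀ x y : MM β, x ^ (2 * n) * y ^ (2 * n) = y ^ (2 * n) * x ^ (2 * n) := by
    intro x y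
    have h1 := ev_eq e (fun c => if c = 0 then x else y)
    rw [ev_append, ev_append, Pool.Agent.Helper70_MWR.ev_rep, Pool.Agent.Helper70_MWR.ev_rep] at h1
    simpa using h1
  rw [rr_iff, ev_append, ev_append, Pool.Agent.Helper70_MWR.ev_rep, Pool.Agent.Helper70_MWR.ev_rep]
  exact H.wc.r0 h0 _ _ ha hb

end Pool.Agent.MWKP.H30

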